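import Pool.Agent.X322.Lind5

namespace Pool.Agent.Results.MP_4e5d1f_mp.GeneratingContractive

open Matrix MeasureTheory
open scoped ComplexOrder

/-- The dissipator `𝒟(ρ) = ∑ⱼ (Lⱼ ρ Lⱼ† - ½ {Lⱼ†Lⱼ, ρ})`. -/
noncomputable def dissipator {d m : ℕ} (L : Fin m → Matrix (Fin d) (Fin d) ℂ)
    (ρ : Matrix (Fin d) (Fin d) ℂ) : Matrix (Fin d) (Fin d) ℂ :=
  ∑ j, (L j * ρ * (L j)ᴴ - (1 / 2 : ℂ) • ((L j)ᴴ * L j * ρ + ρ * ((L j)ᴴ * L j)))

/-- The driven Lindbladian `ℒ_t(ρ) = -i [H(t), ρ] + 𝒟(ρ)`. -/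
noncomputable def lindbladian {d m : ℕ} (L : Fin m → Matrix (Fin d) (Fin d) ℂ)
    (H : ℝ → Matrix (Fin d) (Fin d) ℂ) (t : ℝ) (ρ : Matrix (Fin d) (Fin d) ℂ) :
    Matrix (Fin d) (Fin d) ℂ :=
  (-Complex.I) • (H t * ρ - ρ * H t) + dissipator L ρ

/-- A drive: Hermitian for `t ≥ 0`, measurable, locally bounded on `[0, ∞)`. -/
structure IsDrive {d : ℕ} (H : ℝ → Matrix (Fin d) (Fin d) ℂ) : Prop where
  hermitian : ∀ t, 0 ≤ t → (H t).IsHermitian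
  measurable : ∀ i j, Measurable (fun t => H t i j)
  locallyBounded : ∀ T : ℝ, ∃ M : ℝ, ∀ t, 0 ≤ t → t ≤ T → ∀ i j, ‖H t i j‖ ≤ M

/-- `E t s` (`t ≥ s ≥ 0`) is the propagator of the driven Lindbladian: for all `s ≥ 0` and `X`,
`t ↦ E t s X` is continuous on `[s, ∞)` and solves `E t s X = X + ∫ₛᵗ ℒ_r (E r s X) dr`
(the differential equation `∂ₜ E t s = ℒ_t ∘ E t s`, `E s s = id`, for a measurable locally
bounded generator). -/
structure IsPropagator {d m : ℕ} (L : Fin m → Matrix (Fin d) (Fin d) ℂ)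
    (H : ℝ → Matrix (Fin d) (Fin d) ℂ)
    (E : ℝ → ℝ → (Matrix (Fin d) (Fin d) ℂ →ₗ[ℂ] Matrix (Fin d) (Fin d) ℂ)) : Prop where
  continuousOn : ∀ s, 0 ≤ s → ∀ (X : Matrix (Fin d) (Fin d) ℂ) (i j : Fin d),
    ContinuousOn (fun t => (E t s X) i j) (Set.Ici s)
  eq_integral : ∀ s t, 0 ≤ s → s ≤ t → ∀ (X : Matrix (Fin d) (Fin d) ℂ) (i j : Fin d),
    (E t s X) i j = X i j + ∫ r in s..t, (lindbladian L H r (E r s X)) i j

/-- The trace norm: the sum of the singular values. -/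
noncomputable def traceNorm {d : ℕ} (X : Matrix (Fin d) (Fin d) ℂ) : ℝ :=
  ∑ i, Real.sqrt ((Matrix.isHermitian_conjTranspose_mul_self X).eigenvalues i)

/-- Density matrices. -/
def IsDensity {d : ℕ} (ρ : Matrix (Fin d) (Fin d) ℂ) : Prop := ρ.PosSemidef ∧ ρ.trace = 1

/-- If the jump operators generate the full matrix algebra, then the dissipator is
Hamiltonian-independently contractive, with constants `K, γ` which do not depend on the drive. -/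
theorem result (d m : ℕ) (hd : 2 ≤ d) (L : Fin m → Matrix (Fin d) (Fin d) ℂ)
    (hL : Algebra.adjoin ℂ (Set.range L) = ⊤) :
    ∃ K : ℝ, 0 < K ∧ ∃ γ : ℝ, 0 < γ ∧
      ∀ H : ℝ → Matrix (Fin d) (Fin d) ℂ, IsDrive H →
      ∀ E : ℝ → ℝ → (Matrix (Fin d) (Fin d) ℂ →ₗ[ℂ] Matrix (Fin d) (Fin d) ℂ),
        IsPropagator L H E →
      ∀ ρ σ : Matrix (Fin d) (Fin d) ℂ, IsDensity ρ → IsDensity σ →
      ∀ s t : ℝ, 0 ≤ s → s ≤ t →
        traceNorm (E t s ρ - E t s σ) ≤ K * Real.exp (-γ * (t - s)) * traceNorm (ρ - σ) := by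
  obtain ⟨K, hK, γ, hγ, h⟩ := Pool.Agent.X322.Lind.main hd hL
  refine ⟨K, hK, γ, hγ, fun H hH E hE ρ σ hρ hσ s t hs hst => ?_⟩
  exact h H ⟨hH.hermitian, hH.measurable, hH.locallyBounded⟩ E ⟨hE.continuousOn, hE.eq_integral⟩
    ρ σ hρ.1 hρ.2 hσ.1 hσ.2 s t hs hst

end Pool.Agent.Results.MP_4e5d1f_mp.GeneratingContractive
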